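import Pool.Agent.Y502.BP.Gen

/-!
# A radial function with slowly decreasing moments
-/

set_option autoImplicit false
open MeasureTheory Complex Set Filter Topology
open scoped ENNReal NNReal ComplexConjugate

namespace Pool.Agent.Y502.BP

open Pool.Agent.Helper66.Berg

noncomputable section

/-- the radial function -/
def s1 (r : ℝ) : ℝ := (∑' k, ENNReal.ofReal (cc k * |r| ^ (2 * NN k))).toReal

lemma s1_meas : Measurable s1 := by
  unfold s1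
  refine Measurable.ennreal_toReal ?_
  refine Measurable.tsum fun k => ?_
  fun_prop

lemma s1_norm (z : ℂ) : s1 ‖z‖ = (s0E z).toReal := by
  unfold s1 s0E
  rw [abs_norm]

lemma s1_eq {z : ℂ} (hz : ‖z‖ < 1) : s1 ‖z‖ = s0 z := by
  rw [s1_norm, s0E_eq hz, ENNReal.toReal_ofReal (s0_nonneg z)]

lemma s1_rad : Rad s1 := by
  refine ⟨s1_meas, ?_, ?_⟩
  · intro r h0 h1
    have h2 : ‖(r : ℂ)‖ = r := by rw [Complex.norm_real, Real.norm_eq_abs, abs_of_nonneg h0]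
    have h3 : ‖(r : ℂ)‖ < 1 := by rw [h2]; exact h1
    have h4 := s1_eq h3
    rw [h2] at h4
    rw [h4]
    exact s0_pos h3
  · refine ⟨(s1_meas.comp measurable_norm).aestronglyMeasurable, ?_⟩
    rw [hasFiniteIntegral_iff_enorm]
    have h1 : ∫⁻ z in Metric.ball (0:ℂ) 1, ‖s1 ‖z‖‖ₑ = ∫⁻ z in Metric.ball (0:ℂ) 1, s0E z := by
      refine setLIntegral_congr_fun measurableSet_ball fun z hz => ?_
      have hz' : ‖z‖ < 1 := by simpa using hz
      show ‖s1 ‖z‖‖ₑ = s0E z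
      rw [s1_eq hz', s0E_eq hz', Real.enorm_eq_ofReal (s0_nonneg z)]
    rw [h1]
    have h2 : mu0 Set.univ = ∫⁻ z in Metric.ball (0:ℂ) 1, s0E z := by
      rw [mu0, withDensity_apply _ MeasurableSet.univ, Measure.restrict_univ]
    rw [← h2]
    exact measure_lt_top _ _

lemma rm_s1 : rm s1 = mu0 := by
  refine withDensity_congr_ae ?_
  filter_upwards [ae_restrict_mem measurableSet_ball] with z hz
  have hz' : ‖z‖ < 1 := by simpa using hz
  rw [s1_eq hz', s0E_eq hz']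

lemma two_le (k : ℕ) : 2 ≤ 2 ^ (16 ^ k) := by
  calc 2 = 2 ^ 1 := rfl
    _ ≤ 2 ^ (16 ^ k) := Nat.pow_le_pow_right (by norm_num) (Nat.one_le_pow _ _ (by norm_num))

theorem s1_big : ¬ BddAbove (Set.range fun N : ℕ =>
    (∫ z in Metric.ball (0:ℂ) 1, ‖z‖ ^ (2 * N) * s1 ‖z‖) ^ 2 * Real.log (N + 1)) := by
  rw [not_bddAbove_iff]
  intro B
  have hpi := Real.pi_pos
  have hl2 : 0 < Real.log 2 := Real.log_pos (by norm_num)
  have hc : 0 < (Real.pi / 3) ^ 2 * Real.log 2 := by positivity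
  obtain ⟨k, hk⟩ := pow_unbounded_of_one_lt (B / ((Real.pi / 3) ^ 2 * Real.log 2))
    (by norm_num : (1:ℝ) < 4)
  refine ⟨_, ⟨NN k + 1, rfl⟩, ?_⟩
  rw [div_lt_iff₀ hc] at hk
  refine lt_of_lt_of_le hk ?_
  show _ ≤ (∫ z in Metric.ball (0:ℂ) 1, ‖z‖ ^ (2 * (NN k + 1)) * s1 ‖z‖) ^ 2 *
    Real.log (((NN k + 1 : ℕ) : ℝ) + 1)
  rw [← mom_eq s1_rad, rm_s1]
  have h1 : (1 / 2) ^ k * (Real.pi / 3) ≤ mom mu0 (NN k + 1) := mom_mu0_ge' le_rfl
  have h2 : ((NN k + 1 : ℕ) : ℝ) + 1 = 2 ^ (16 ^ k) := by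
    have h3 : NN k + 1 + 1 = 2 ^ (16 ^ k) := by
      have := two_le k
      unfold NN
      omega
    exact_mod_cast h3
  have h4 : Real.log (((NN k + 1 : ℕ) : ℝ) + 1) = 16 ^ k * Real.log 2 := by
    rw [h2, Real.log_pow]
    push_cast
    ring
  rw [h4]
  have h5 : ((1 / 2) ^ k * (Real.pi / 3)) ^ 2 ≤ mom mu0 (NN k + 1) ^ 2 :=
    pow_le_pow_left₀ (by positivity) h1 2
  have h6 : (4:ℝ) ^ k * ((Real.pi / 3) ^ 2 * Real.log 2) =
      ((1 / 2) ^ k * (Real.pi / 3)) ^ 2 * (16 ^ k * Real.log 2) := by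
    have h7 : (16:ℝ) ^ k = 4 ^ k * 4 ^ k := by rw [← mul_pow]; norm_num
    have h8 : (((1:ℝ) / 2) ^ k) ^ 2 * 4 ^ k = 1 := by
      rw [← pow_mul, mul_comm k 2, pow_mul, ← mul_pow]; norm_num
    rw [h7]
    calc (4:ℝ) ^ k * ((Real.pi / 3) ^ 2 * Real.log 2)
        = ((((1:ℝ) / 2) ^ k) ^ 2 * 4 ^ k) * (4 ^ k * ((Real.pi / 3) ^ 2 * Real.log 2)) := by
          rw [h8, one_mul]
      _ = _ := by ring
  rw [h6]
  exact mul_le_mul_of_nonneg_right h5 (by positivity)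

/-- the moments of the example are not square summable with the weights `1 / (N + 1)` -/
theorem s1_div : ¬ Summable fun N : ℕ =>
    (∫ z in Metric.ball (0:ℂ) 1, ‖z‖ ^ (2 * N) * s1 ‖z‖) ^ 2 / ((N:ℝ) + 1) := by
  intro h
  apply s1_big
  refine ⟨∑' N : ℕ, (∫ z in Metric.ball (0:ℂ) 1, ‖z‖ ^ (2 * N) * s1 ‖z‖) ^ 2 / ((N:ℝ) + 1), ?_⟩
  rintro _ ⟨N, rfl⟩
  show (∫ z in Metric.ball (0:ℂ) 1, ‖z‖ ^ (2 * N) * s1 ‖z‖) ^ 2 * Real.log ((N:ℝ) + 1) ≤ _
  refine le_trans ?_ (h.sum_le_tsum (Finset.range N) fun i _ => by positivity)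
  have h1 : Real.log ((N:ℝ) + 1) ≤ ∑ m ∈ Finset.range N, 1 / ((m:ℝ) + 1) := by
    have := log_add_one_le_harmonic N
    rw [harmonic] at this
    push_cast at this
    simpa [one_div] using this
  refine le_trans (mul_le_mul_of_nonneg_left h1 (by positivity)) ?_
  rw [Finset.mul_sum]
  refine Finset.sum_le_sum fun m hm => ?_
  rw [mul_one_div]
  have h2 : mom (rm s1) N ≤ mom (rm s1) m := mom_anti s1_rad (Finset.mem_range.1 hm).le
  rw [mom_eq s1_rad, mom_eq s1_rad] at h2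
  have h3 : 0 ≤ ∫ z in Metric.ball (0:ℂ) 1, ‖z‖ ^ (2 * N) * s1 ‖z‖ := by
    rw [← mom_eq s1_rad]
    exact (mom_pos s1_rad N).le
  gcongr

end

end Pool.Agent.Y502.BP
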