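import Pool.Agent.Helper66.BergI

/-!
# The Bergman projection and the maximal Bergman projection, radial factors

The arguments of `Pool.Agent.Helper66.Berg` (starting library) for the weights `‖1 - z‖² s(‖z‖)`
with an arbitrary radial function `s`.
-/

set_option autoImplicit false
open MeasureTheory Complex Set Filter Topology
open scoped ENNReal NNReal ComplexConjugate

namespace Pool.Agent.Y502.BP

open Pool.Agent.Helper66.Berg

noncomputable section

/-- radial, positive, integrable -/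
structure Rad (s : ℝ → ℝ) : Prop where
  meas : Measurable s
  pos : ∀ r : ℝ, 0 ≤ r → r < 1 → 0 < s r
  int : IntegrableOn (fun z : ℂ => s ‖z‖) (Metric.ball (0:ℂ) 1)

variable {s : ℝ → ℝ} (hs : Rad s)

/-- the radial measure -/
def rm (s : ℝ → ℝ) : Measure ℂ :=
  (volume.restrict (Metric.ball (0:ℂ) 1)).withDensity (fun z => ENNReal.ofReal (s ‖z‖))

/-- the second weight -/
def sG (s : ℝ → ℝ) (z : ℂ) : ℝ := ‖1 - z‖ ^ 2 * s ‖z‖

include hs

lemma dens_meas : Measurable (fun z : ℂ => ENNReal.ofReal (s ‖z‖)) :=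
  (hs.meas.comp measurable_norm).ennreal_ofReal

lemma rm_rotInv : RotInv (rm s) := by
  refine withDensity_rotInv restrict_ball_rotInv (dens_meas hs) ?_
  intro c z hc
  simp [hc]

omit hs in
lemma rm_lt : ∀ᵐ z ∂(rm s), ‖z‖ < 1 := by
  refine (withDensity_absolutelyContinuous _ _).ae_le ?_
  filter_upwards [ae_restrict_mem measurableSet_ball] with z hz
  simpa using hz

lemma lint_rm (g : ℂ → ℝ≥0∞) :
    ∫⁻ z, g z ∂(rm s) = ∫⁻ z in Metric.ball (0:ℂ) 1, ENNReal.ofReal (s ‖z‖) * g z := by
  rw [rm, lintegral_withDensity_eq_lintegral_mul_non_measurable _ (dens_meas hs)]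
  · rfl
  · exact Filter.Eventually.of_forall fun z => ENNReal.ofReal_lt_top

lemma s_nonneg {z : ℂ} (hz : ‖z‖ < 1) : 0 ≤ s ‖z‖ := (hs.pos _ (norm_nonneg z) hz).le

lemma int_rm (g : ℂ → ℂ) :
    ∫ z, g z ∂(rm s) = ∫ z in Metric.ball (0:ℂ) 1, (s ‖z‖ : ℂ) * g z := by
  rw [rm, integral_withDensity_eq_integral_toReal_smul (dens_meas hs)]
  · refine setIntegral_congr_fun measurableSet_ball fun z hz => ?_
    have hz' : ‖z‖ < 1 := by simpa using hz
    rw [ENNReal.toReal_ofReal (s_nonneg hs hz')]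
    simp
  · exact Filter.Eventually.of_forall fun z => ENNReal.ofReal_lt_top

lemma rm_fin : IsFiniteMeasure (rm s) := by
  constructor
  rw [rm, withDensity_apply _ MeasurableSet.univ, Measure.restrict_univ]
  have h := hs.int.2
  rw [hasFiniteIntegral_iff_enorm] at h
  refine lt_of_le_of_lt (lintegral_mono fun z => ?_) h
  rw [← ofReal_norm]
  exact ENNReal.ofReal_le_ofReal (Real.le_norm_self _)

lemma mom_eq (m : ℕ) : mom (rm s) m = ∫ z in Metric.ball (0:ℂ) 1, ‖z‖ ^ (2 * m) * s ‖z‖ := by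
  rw [mom, rm, integral_withDensity_eq_integral_toReal_smul (dens_meas hs)]
  · refine setIntegral_congr_fun measurableSet_ball fun z hz => ?_
    have hz' : ‖z‖ < 1 := by simpa using hz
    rw [ENNReal.toReal_ofReal (s_nonneg hs hz'), smul_eq_mul, mul_comm]
  · exact Filter.Eventually.of_forall fun z => ENNReal.ofReal_lt_top

lemma mom_pos (m : ℕ) : 0 < mom (rm s) m := by
  have := rm_fin hs
  have h0 : 0 ≤ mom (rm s) m := integral_nonneg fun z => by positivity
  rcases h0.lt_or_eq with h | h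
  · exact h
  exfalso
  have h1 : ∀ᵐ z ∂(rm s), ‖z‖ ^ (2 * m) = 0 := by
    have := (integral_eq_zero_iff_of_nonneg (μ := rm s) (f := fun z : ℂ => ‖z‖ ^ (2 * m))
      (fun z => by positivity) (int_norm_pow rm_lt (2 * m))).1 h.symm
    exact this
  rw [rm, ae_withDensity_iff (dens_meas hs), ae_restrict_iff' measurableSet_ball] at h1
  have h2 : ∀ᵐ z ∂(volume : Measure ℂ), z ∉ Metric.ball (0:ℂ) 1 \ {0} := by
    filter_upwards [h1] with z hz hcon
    have hz' : ‖z‖ < 1 := by simpa using hcon.1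
    have h3 : ENNReal.ofReal (s ‖z‖) ≠ 0 := by
      rw [Ne, ENNReal.ofReal_eq_zero, not_le]
      exact hs.pos _ (norm_nonneg z) hz'
    have h4 := hz hcon.1 h3
    have h5 : ‖z‖ = 0 := by
      rcases Nat.eq_zero_or_pos m with hm | hm
      · subst hm
        simp at h4
      · exact (pow_eq_zero_iff (by omega)).1 h4
    exact hcon.2 (by simpa using h5)
  rw [ae_iff] at h2
  simp only [not_not, Set.ofPred_mem_eq] at h2
  have h3 : volume (Metric.ball (0:ℂ) 1) = 0 := by
    have h4 : Metric.ball (0:ℂ) 1 ⊆ (Metric.ball (0:ℂ) 1 \ {0}) ∪ {0} := by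
      intro z hz
      by_cases h : z = 0
      · exact Or.inr h
      · exact Or.inl ⟨hz, h⟩
    refine le_antisymm ((measure_mono h4).trans ((measure_union_le _ _).trans ?_)) bot_le
    rw [h2, measure_singleton, add_zero]
  exact absurd h3 (Metric.measure_ball_pos volume (0:ℂ) one_pos).ne'

lemma mom_anti {m n : ℕ} (h : m ≤ n) : mom (rm s) n ≤ mom (rm s) m := by
  have := rm_fin hs
  refine integral_mono_ae (int_norm_pow rm_lt (2 * n)) (int_norm_pow rm_lt (2 * m)) ?_
  filter_upwards [rm_lt] with z hz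
  exact pow_le_pow_of_le_one (norm_nonneg z) hz.le (by omega)

end

end Pool.Agent.Y502.BP
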