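import Pool.Agent.Y502.BP.Gen

/-!
# Upper and lower bounds for radial factors
-/

set_option autoImplicit false
open MeasureTheory Complex Set Filter Topology
open scoped ENNReal NNReal ComplexConjugate

namespace Pool.Agent.Y502.BP

open Pool.Agent.Helper66.Berg

noncomputable section

variable {s : ℝ → ℝ} (hs : Rad s)

include hs

theorem PB_bound' (f : ℂ → ℂ) (hf : Measurable f) (hb : ∃ M : ℝ, ∀ z, ‖f z‖ ≤ M) :
    ∫⁻ z in Metric.ball (0:ℂ) 1,
        ‖∫ ζ in Metric.ball (0:ℂ) 1,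
          f ζ * (sG s ζ : ℂ) / (1 - z * starRingEnd ℂ ζ) ^ 2‖ₑ ^ 2 * ENNReal.ofReal (wW z)
      ≤ ((10 * Real.pi * mom (rm s) 0).toNNReal : ℝ≥0∞) *
        ∫⁻ ζ in Metric.ball (0:ℂ) 1, ‖f ζ‖ₑ ^ 2 * ENNReal.ofReal (sG s ζ) := by
  have hfin := rm_fin hs
  obtain ⟨M, hM⟩ := hb
  have hM0 : 0 ≤ M := (norm_nonneg _).trans (hM 0)
  set F : ℂ → ℂ := fun ζ => (1 - ζ) * f ζ with hF
  have hFm : Measurable F := by
    simp only [hF]; fun_prop
  have hK : ∀ᵐ z ∂(rm s), ‖F z‖ ≤ 2 * M := by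
    filter_upwards [(rm_lt (s := s))] with z hz
    simp only [hF, norm_mul]
    have h2 : ‖1 - z‖ ≤ 2 := by
      calc ‖1 - z‖ ≤ ‖(1:ℂ)‖ + ‖z‖ := norm_sub_le _ _
        _ ≤ 2 := by rw [norm_one]; linarith
    exact mul_le_mul h2 (hM z) (norm_nonneg _) (by norm_num)
  have h1 := main_upper (rm_rotInv hs) (rm_lt (s := s)) hFm hK (mom_pos hs)
  have hP : ∀ z : ℂ, ∫ ζ, F ζ * (1 - conj ζ) / (1 - z * conj ζ) ^ 2 ∂(rm s)
      = ∫ ζ in Metric.ball (0:ℂ) 1, f ζ * (sG s ζ : ℂ) / (1 - z * starRingEnd ℂ ζ) ^ 2 := by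
    intro z
    rw [int_rm hs]
    refine setIntegral_congr_fun measurableSet_ball fun ζ hζ => ?_
    simp only [hF, sG]
    have : (((‖1 - ζ‖ ^ 2 * s ‖ζ‖ : ℝ)) : ℂ) = (1 - ζ) * (1 - conj ζ) * s ‖ζ‖ := by
      have h2 : (1 - ζ) * (1 - conj ζ) = ((‖1 - ζ‖ ^ 2 : ℝ) : ℂ) := by
        have : 1 - conj ζ = conj (1 - ζ) := by simp
        rw [this, Complex.mul_conj']
        push_cast; rfl
      rw [h2]; push_cast; ring
    rw [this]
    ring
  simp_rw [hP] at h1
  rw [lint_nu] at h1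
  have h2 : ∫⁻ z in Metric.ball (0:ℂ) 1,
        ‖∫ ζ in Metric.ball (0:ℂ) 1,
          f ζ * (sG s ζ : ℂ) / (1 - z * starRingEnd ℂ ζ) ^ 2‖ₑ ^ 2 * ENNReal.ofReal (wW z)
      = ∫⁻ z in Metric.ball (0:ℂ) 1, ENNReal.ofReal (1 - ‖z‖ ^ 2) *
        ‖(∫ ζ in Metric.ball (0:ℂ) 1,
          f ζ * (sG s ζ : ℂ) / (1 - z * starRingEnd ℂ ζ) ^ 2) / (1 - z)‖ₑ ^ 2 := by
    refine setLIntegral_congr_fun measurableSet_ball fun z hz => ?_
    have hz' : ‖z‖ < 1 := by simpa using hz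
    have hne := one_sub_ne hz'
    have hpos : 0 < ‖1 - z‖ := norm_pos_iff.mpr hne
    simp only [wW]
    set A := ∫ ζ in Metric.ball (0:ℂ) 1, f ζ * (sG s ζ : ℂ) / (1 - z * starRingEnd ℂ ζ) ^ 2
    rw [← ofReal_norm, ← ofReal_norm, ← ENNReal.ofReal_pow (norm_nonneg _),
      ← ENNReal.ofReal_pow (norm_nonneg _), ← ENNReal.ofReal_mul (by positivity),
      ← ENNReal.ofReal_mul (by nlinarith [norm_nonneg z]), norm_div]
    congr 1
    field_simp
  rw [h2]
  refine h1.trans ?_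
  have h3 : ∫⁻ ζ in Metric.ball (0:ℂ) 1, ‖f ζ‖ₑ ^ 2 * ENNReal.ofReal (sG s ζ)
      = ENNReal.ofReal (∫ z, ‖F z‖ ^ 2 ∂(rm s)) := by
    rw [ofReal_integral_eq_lintegral_ofReal]
    · rw [lint_rm hs]
      refine setLIntegral_congr_fun measurableSet_ball fun ζ hζ => ?_
      simp only [hF, sG]
      have hζ' : ‖ζ‖ < 1 := by simpa using hζ
      rw [← ofReal_norm, ← ENNReal.ofReal_pow (norm_nonneg _), ← ENNReal.ofReal_mul (by positivity),
        ← ENNReal.ofReal_mul (s_nonneg hs hζ'), norm_mul]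
      congr 1
      ring
    · refine Integrable.of_bound ((hFm.norm.pow_const 2).aestronglyMeasurable) ((2 * M) ^ 2) ?_
      filter_upwards [hK] with z hk
      rw [norm_pow, norm_norm]
      gcongr
    · exact Filter.Eventually.of_forall fun z => by positivity
  rw [h3]
  have h4 : (0:ℝ) ≤ 10 * Real.pi * mom (rm s) 0 := by
    have := mom_pos hs 0
    have := Real.pi_pos
    positivity
  have h5 : ((10 * Real.pi * mom (rm s) 0).toNNReal : ℝ≥0∞) = ENNReal.ofReal (10 * Real.pi * mom (rm s) 0) := rfl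
  rw [h5, ← ENNReal.ofReal_mul h4]
  refine ENNReal.ofReal_le_ofReal (le_of_eq ?_)
  ring

theorem PBplus_unbounded'
    (hbig : ∫⁻ z in Metric.ball (0:ℂ) 1, (∫⁻ ζ, kk z ζ ∂(rm s)) ^ 2 * ENNReal.ofReal (wW z) = ∞) :
    ¬ ∃ C : NNReal, ∀ f : ℂ → ℂ, Measurable f → (∃ M : ℝ, ∀ z, ‖f z‖ ≤ M) →
        (∃ t : ℝ, t < 1 ∧ ∀ z : ℂ, t < ‖z‖ → f z = 0) →
        ∫⁻ z in Metric.ball (0:ℂ) 1,
            (∫⁻ ζ in Metric.ball (0:ℂ) 1,
                ‖f ζ‖ₑ * ENNReal.ofReal (sG s ζ) / ‖1 - z * starRingEnd ℂ ζ‖ₑ ^ 2) ^ 2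
              * ENNReal.ofReal (wW z)
          ≤ (C : ENNReal) * ∫⁻ ζ in Metric.ball (0:ℂ) 1, ‖f ζ‖ₑ ^ 2 * ENNReal.ofReal (sG s ζ) := by
  have hfinm := rm_fin hs
  rintro ⟨C, hC⟩
  set R : ℕ → ℝ := fun n => 1 - 1 / ((n:ℝ) + 2) with hR
  set f : ℕ → ℂ → ℂ := fun n => (Metric.closedBall (0:ℂ) (R n)).indicator (fun _ => 1) with hf
  have hfm : ∀ n, Measurable (f n) := fun n => measurable_const.indicator measurableSet_closedBall
  have hf1 : ∀ n z, ‖f n z‖ ≤ 1 := by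
    intro n z
    simp only [hf, Set.indicator]
    split_ifs <;> simp
  have hf1' : ∀ n z, ‖f n z‖ₑ ≤ 1 := by
    intro n z
    simp only [hf, Set.indicator]
    split_ifs <;> simp
  have hsW : ∀ ζ : ℂ, ENNReal.ofReal (sG s ζ) = ENNReal.ofReal (s ‖ζ‖) * ENNReal.ofReal (‖1 - ζ‖ ^ 2) := by
    intro ζ
    unfold sG
    rw [ENNReal.ofReal_mul (by positivity), mul_comm]
  set A : ℕ → ℂ → ℝ≥0∞ := fun n z => ∫⁻ ζ, ‖f n ζ‖ₑ * kk z ζ ∂(rm s) with hA
  have hAeq : ∀ n z, (∫⁻ ζ in Metric.ball (0:ℂ) 1,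
      ‖f n ζ‖ₑ * ENNReal.ofReal (sG s ζ) / ‖1 - z * starRingEnd ℂ ζ‖ₑ ^ 2) = A n z := by
    intro n z
    simp only [hA]
    rw [lint_rm hs]
    refine setLIntegral_congr_fun measurableSet_ball fun ζ _ => ?_
    simp only [kk]
    rw [hsW, div_eq_mul_inv, div_eq_mul_inv]
    ring
  set K : ℝ≥0∞ := C * (4 * (rm s) Set.univ) with hK
  have hKtop : K ≠ ∞ := by
    refine ENNReal.mul_ne_top ENNReal.coe_ne_top (ENNReal.mul_ne_top (by norm_num) ?_)
    exact measure_ne_top _ _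
  have hbound : ∀ n, ∫⁻ z in Metric.ball (0:ℂ) 1, A n z ^ 2 * ENNReal.ofReal (wW z) ≤ K := by
    intro n
    have hRn : R n < 1 := by
      simp only [hR]
      have : (0:ℝ) < 1 / ((n:ℝ) + 2) := by positivity
      linarith
    have hsupp : ∀ z : ℂ, R n < ‖z‖ → f n z = 0 := by
      intro z hz
      simp only [hf, Set.indicator]
      rw [if_neg]
      simpa using hz
    have h1 := hC (f n) (hfm n) ⟨1, hf1 n⟩ ⟨R n, hRn, hsupp⟩
    simp_rw [hAeq] at h1
    refine h1.trans ?_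
    rw [hK]
    gcongr
    calc ∫⁻ ζ in Metric.ball (0:ℂ) 1, ‖f n ζ‖ₑ ^ 2 * ENNReal.ofReal (sG s ζ)
        ≤ ∫⁻ ζ in Metric.ball (0:ℂ) 1, ENNReal.ofReal (s ‖ζ‖) * 4 := by
          refine setLIntegral_mono' measurableSet_ball fun ζ hζ => ?_
          have hζ' : ‖ζ‖ < 1 := by simpa using hζ
          rw [hsW]
          have h2 : ‖1 - ζ‖ ≤ 2 := by
            calc ‖1 - ζ‖ ≤ ‖(1:ℂ)‖ + ‖ζ‖ := norm_sub_le _ _
              _ ≤ 2 := by rw [norm_one]; linarith
          have h3 : ENNReal.ofReal (‖1 - ζ‖ ^ 2) ≤ 4 := by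
            calc ENNReal.ofReal (‖1 - ζ‖ ^ 2) ≤ ENNReal.ofReal 4 := by
                  refine ENNReal.ofReal_le_ofReal ?_
                  nlinarith [norm_nonneg (1 - ζ)]
              _ = 4 := by norm_num
          calc ‖f n ζ‖ₑ ^ 2 * (ENNReal.ofReal (s ‖ζ‖) * ENNReal.ofReal (‖1 - ζ‖ ^ 2))
              ≤ 1 ^ 2 * (ENNReal.ofReal (s ‖ζ‖) * 4) := by
                gcongr
                exact hf1' n ζ
            _ = _ := by rw [one_pow, one_mul]
      _ = ∫⁻ ζ, 4 ∂(rm s) := (lint_rm hs _).symm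
      _ = 4 * (rm s) Set.univ := by simp
  have hlim : ∀ z, Tendsto (fun n => A n z) atTop (𝓝 (∫⁻ ζ, kk z ζ ∂(rm s))) := by
    intro z
    have hkz : Measurable (fun ζ => kk z ζ) := by
      unfold kk
      fun_prop
    refine lintegral_tendsto_of_tendsto_of_monotone (fun n => ?_) ?_ ?_
    · exact ((hfm n).enorm.mul hkz).aemeasurable
    · refine Filter.Eventually.of_forall fun ζ => ?_
      intro n m hnm
      simp only
      have h1 : ‖f n ζ‖ₑ ≤ ‖f m ζ‖ₑ := by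
        have h2 : R n ≤ R m := by
          simp only [hR]
          have : (n:ℝ) ≤ m := by exact_mod_cast hnm
          have : 1 / ((m:ℝ) + 2) ≤ 1 / ((n:ℝ) + 2) := by gcongr
          linarith
        simp only [hf, Set.indicator]
        split_ifs with h3 h4
        · exact le_rfl
        · exfalso
          apply h4
          exact Metric.closedBall_subset_closedBall h2 h3
        · simp
        · exact le_rfl
      gcongr
    · filter_upwards [(rm_lt (s := s))] with ζ hζ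
      have h1 : ∀ᶠ n in atTop, f n ζ = 1 := by
        have h2 : Tendsto (fun n : ℕ => 1 - 1 / ((n:ℝ) + 2)) atTop (𝓝 (1 - 0)) := by
          refine Tendsto.const_sub 1 ?_
          have := tendsto_one_div_add_atTop_nhds_zero_nat (𝕜 := ℝ)
          have h3 := (tendsto_add_atTop_iff_nat (f := fun n : ℕ => 1 / ((n:ℝ) + 1)) 1).mpr this
          refine h3.congr fun n => ?_
          push_cast
          ring_nf
        rw [sub_zero] at h2
        filter_upwards [h2.eventually (eventually_gt_nhds hζ)] with n hn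
        simp only [hf, Set.indicator]
        rw [if_pos]
        simp only [Metric.mem_closedBall, dist_zero_right, hR]
        exact hn.le
      refine Tendsto.congr' ?_ tendsto_const_nhds
      filter_upwards [h1] with n hn
      rw [hn]
      simp
  have hfatou : ∫⁻ z in Metric.ball (0:ℂ) 1, (∫⁻ ζ, kk z ζ ∂(rm s)) ^ 2 * ENNReal.ofReal (wW z) ≤ K := by
    have h1 : ∀ z, (∫⁻ ζ, kk z ζ ∂(rm s)) ^ 2 * ENNReal.ofReal (wW z)
        = liminf (fun n => A n z ^ 2 * ENNReal.ofReal (wW z)) atTop := by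
      intro z
      refine (Tendsto.liminf_eq ?_).symm
      exact ENNReal.Tendsto.mul_const (ENNReal.Tendsto.pow (hlim z)) (Or.inr ENNReal.ofReal_ne_top)
    simp_rw [h1]
    refine (lintegral_liminf_le ?_).trans ?_
    · intro n
      have h2 : Measurable (A n) := by
        simp only [hA]
        refine Measurable.lintegral_prod_right' (f := fun p : ℂ × ℂ => ‖f n p.2‖ₑ * kk p.1 p.2) ?_
        exact ((hfm n).comp measurable_snd).enorm.mul kk_meas
      refine (h2.pow_const 2).mul ?_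
      unfold wW
      fun_prop
    · refine liminf_le_of_le (by isBoundedDefault) ?_
      intro b hb
      obtain ⟨M, hM⟩ := hb.exists
      exact hM.trans (hbound M)
  rw [hbig] at hfatou
  exact hKtop (top_le_iff.1 hfatou)


end

end Pool.Agent.Y502.BP
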