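import Pool.Agent.Y502.BP.Gen

/-!
# Lower bounds for the maximal Bergman projection of a radial weight
-/

set_option autoImplicit false
open MeasureTheory Complex Set Filter Topology
open scoped ENNReal NNReal ComplexConjugate

namespace Pool.Agent.Y502.BP

open Pool.Agent.Helper66.Berg

noncomputable section

lemma dec_sq {a : ℕ → ℝ} (h0 : ∀ m, 0 ≤ a m) (ha : ∀ m n, m ≤ n → a n ≤ a m) {t : ℝ}
    (ht : 0 ≤ t) (n : ℕ) : ∑ m ∈ Finset.range n, (((m:ℝ) + 1) * a m ^ 2) * t ^ m ≤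
      (∑ m ∈ Finset.range n, a m * t ^ m) ^ 2 := by
  have e1 : (∑ m ∈ Finset.range n, a m * t ^ m) ^ 2 =
      ∑ p ∈ Finset.range n ×ˢ Finset.range n, (a p.1 * t ^ p.1) * (a p.2 * t ^ p.2) := by
    rw [sq, Finset.sum_mul_sum, ← Finset.sum_product']
  have hsub : (Finset.range n).biUnion (fun k => Finset.HasAntidiagonal.antidiagonal k) ⊆
      Finset.range n ×ˢ Finset.range n := by
    intro p hp
    obtain ⟨k, hk, hp⟩ := Finset.mem_biUnion.1 hp
    have h1 := Finset.mem_range.1 hk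
    have h2 := Finset.HasAntidiagonal.mem_antidiagonal.1 hp
    exact Finset.mem_product.2 ⟨Finset.mem_range.2 (by omega), Finset.mem_range.2 (by omega)⟩
  rw [e1]
  refine le_trans ?_ (Finset.sum_le_sum_of_subset_of_nonneg hsub fun p _ _ =>
    mul_nonneg (mul_nonneg (h0 _) (pow_nonneg ht _)) (mul_nonneg (h0 _) (pow_nonneg ht _)))
  rw [Finset.sum_biUnion]
  · refine Finset.sum_le_sum fun k _ => ?_
    have h1 : ∀ p ∈ Finset.HasAntidiagonal.antidiagonal k,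
        a k ^ 2 * t ^ k ≤ (a p.1 * t ^ p.1) * (a p.2 * t ^ p.2) := by
      intro p hp
      have h2 := Finset.HasAntidiagonal.mem_antidiagonal.1 hp
      have h3 : (a p.1 * t ^ p.1) * (a p.2 * t ^ p.2) = (a p.1 * a p.2) * t ^ k := by
        rw [← h2, pow_add]
        ring
      rw [h3, sq]
      exact mul_le_mul_of_nonneg_right (mul_le_mul (ha _ _ (by omega)) (ha _ _ (by omega)) (h0 _)
        (h0 _)) (pow_nonneg ht _)
    have h4 := Finset.sum_le_sum h1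
    rw [Finset.sum_const, Finset.Nat.card_antidiagonal, nsmul_eq_mul] at h4
    push_cast at h4
    linarith
  · intro k _ l _ hkl
    rw [Function.onFun, Finset.disjoint_left]
    intro p h1 h2
    exact hkl ((Finset.HasAntidiagonal.mem_antidiagonal.1 h1).symm.trans
      (Finset.HasAntidiagonal.mem_antidiagonal.1 h2))

/-- radial polynomials -/
def SA (a : ℕ → ℝ) (n : ℕ) (z : ℂ) : ℝ := ∑ m ∈ Finset.range n, a m * ‖z‖ ^ (2 * m)

lemma SA_cont (a : ℕ → ℝ) (n : ℕ) : Continuous (SA a n) := by unfold SA; fun_prop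

lemma SA_nonneg {a : ℕ → ℝ} (h0 : ∀ m, 0 ≤ a m) (n : ℕ) (z : ℂ) : 0 ≤ SA a n z :=
  Finset.sum_nonneg fun m _ => mul_nonneg (h0 m) (by positivity)

lemma SA_le {a : ℕ → ℝ} (h0 : ∀ m, 0 ≤ a m) (ha : ∀ m n, m ≤ n → a n ≤ a m) (n : ℕ) {z : ℂ}
    (hz : ‖z‖ < 1) : SA a n z ≤ (n:ℝ) * a 0 := by
  unfold SA
  calc _ ≤ ∑ _m ∈ Finset.range n, a 0 := Finset.sum_le_sum fun m _ => by
        have h1 : ‖z‖ ^ (2 * m) ≤ 1 := pow_le_one₀ (norm_nonneg _) hz.le
        have h2 := ha 0 m (Nat.zero_le m)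
        have h3 := h0 m
        nlinarith [norm_nonneg z]
    _ = (n:ℝ) * a 0 := by simp

lemma lower_nu' {a : ℕ → ℝ} (h0 : ∀ m, 0 ≤ a m) (ha : ∀ m n, m ≤ n → a n ≤ a m) (n : ℕ) :
    Real.pi * ∑ m ∈ Finset.range n, a m ^ 2 / ((m:ℝ) + 2) ≤ ∫ z, ‖1 - z‖ ^ 2 * SA a n z ^ 2 ∂nu := by
  have hc1 : Continuous (fun z : ℂ => ‖1 - z‖ ^ 2 * SA a n z ^ 2) := by
    have := SA_cont a n; fun_prop
  have hc2 : Continuous (fun z : ℂ => ‖1 + z‖ ^ 2 * SA a n z ^ 2) := by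
    have := SA_cont a n; fun_prop
  have hc3 : Continuous (fun z : ℂ => SA a n z ^ 2) := by
    have := SA_cont a n; fun_prop
  have hb : ∀ z : ℂ, ‖z‖ < 1 → SA a n z ^ 2 ≤ ((n:ℝ) * a 0) ^ 2 := fun z hz => by
    have := SA_le h0 ha n hz
    have := SA_nonneg h0 n z
    gcongr
  have i1 : Integrable (fun z : ℂ => ‖1 - z‖ ^ 2 * SA a n z ^ 2) nu := by
    refine nu_int hc1 (K := 2 ^ 2 * ((n:ℝ) * a 0) ^ 2) fun z hz => ?_
    rw [Real.norm_eq_abs, abs_of_nonneg (by positivity)]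
    have h2 : ‖1 - z‖ ≤ 2 := by
      calc ‖1 - z‖ ≤ ‖(1:ℂ)‖ + ‖z‖ := norm_sub_le _ _
        _ ≤ 2 := by rw [norm_one]; linarith
    have := hb z hz
    gcongr
  have i2 : Integrable (fun z : ℂ => ‖1 + z‖ ^ 2 * SA a n z ^ 2) nu := by
    refine nu_int hc2 (K := 2 ^ 2 * ((n:ℝ) * a 0) ^ 2) fun z hz => ?_
    rw [Real.norm_eq_abs, abs_of_nonneg (by positivity)]
    have h2 : ‖1 + z‖ ≤ 2 := by
      calc ‖1 + z‖ ≤ ‖(1:ℂ)‖ + ‖z‖ := norm_add_le _ _
        _ ≤ 2 := by rw [norm_one]; linarith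
    have := hb z hz
    gcongr
  have i3 : Integrable (fun z : ℂ => SA a n z ^ 2) nu := by
    refine nu_int hc3 (K := ((n:ℝ) * a 0) ^ 2) fun z hz => ?_
    rw [Real.norm_eq_abs, abs_of_nonneg (by positivity)]
    exact hb z hz
  have hsym : ∫ z, ‖1 + z‖ ^ 2 * SA a n z ^ 2 ∂nu = ∫ z, ‖1 - z‖ ^ 2 * SA a n z ^ 2 ∂nu := by
    conv_lhs => rw [← nu_rotInv (-1) (by simp)]
    rw [integral_map (by fun_prop) hc2.aestronglyMeasurable]
    congr 1
    ext z
    have : SA a n (-1 * z) = SA a n z := by simp [SA]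
    rw [this]
    congr 3
    ring
  have hsum : 2 * ∫ z, SA a n z ^ 2 ∂nu ≤ 2 * ∫ z, ‖1 - z‖ ^ 2 * SA a n z ^ 2 ∂nu := by
    have : 2 * ∫ z, ‖1 - z‖ ^ 2 * SA a n z ^ 2 ∂nu
        = ∫ z, (‖1 - z‖ ^ 2 * SA a n z ^ 2 + ‖1 + z‖ ^ 2 * SA a n z ^ 2) ∂nu := by
      rw [integral_add i1 i2, hsym]; ring
    rw [this, ← integral_const_mul]
    refine integral_mono (i3.const_mul 2) (i1.add i2) fun z => ?_
    have h1 : ‖1 - z‖ ^ 2 + ‖1 + z‖ ^ 2 = 2 + 2 * ‖z‖ ^ 2 := by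
      rw [← Complex.normSq_eq_norm_sq, ← Complex.normSq_eq_norm_sq, ← Complex.normSq_eq_norm_sq,
        Complex.normSq_sub, Complex.normSq_add]
      simp
      ring
    simp only
    rw [← add_mul, h1]
    nlinarith [sq_nonneg (SA a n z), sq_nonneg ‖z‖, mul_nonneg (sq_nonneg ‖z‖) (sq_nonneg (SA a n z))]
  have h2 : ∑ m ∈ Finset.range n, (((m:ℝ) + 1) * a m ^ 2) * mom nu m ≤ ∫ z, SA a n z ^ 2 ∂nu := by
    have : ∑ m ∈ Finset.range n, (((m:ℝ) + 1) * a m ^ 2) * mom nu m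
        = ∫ z, ∑ m ∈ Finset.range n, (((m:ℝ) + 1) * a m ^ 2) * ‖z‖ ^ (2 * m) ∂nu := by
      rw [integral_finsetSum]
      · refine Finset.sum_congr rfl fun m _ => ?_
        rw [integral_const_mul]; rfl
      · intro m _
        exact (int_norm_pow nu_lt _).const_mul _
    rw [this]
    refine integral_mono_ae (integrable_finsetSum _ fun m _ => (int_norm_pow nu_lt _).const_mul _) i3 ?_
    filter_upwards [nu_lt] with z hz
    have h3 := dec_sq h0 ha (sq_nonneg ‖z‖) n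
    simp_rw [← pow_mul] at h3
    exact h3
  have h3 : ∑ m ∈ Finset.range n, (((m:ℝ) + 1) * a m ^ 2) * mom nu m
      = Real.pi * ∑ m ∈ Finset.range n, a m ^ 2 / ((m:ℝ) + 2) := by
    rw [Finset.mul_sum]
    refine Finset.sum_congr rfl fun m _ => ?_
    rw [mom_nu]
    have h1 : ((m:ℝ) + 1) ≠ 0 := by positivity
    have h2 : ((m:ℝ) + 2) ≠ 0 := by positivity
    field_simp
  rw [← h3]
  linarith


variable {s : ℝ → ℝ} (hs : Rad s)

include hs

lemma A_lower' (N : ℕ) {z : ℂ} (hz : ‖z‖ < 1) :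
    ENNReal.ofReal (‖1 - z‖ ^ 2 * SA (fun m => mom (rm s) (m + 1)) N z) ≤ ∫⁻ ζ, kk z ζ ∂(rm s) := by
  have hfin := rm_fin hs
  have h1 := lower_h (rm_rotInv hs) (rm_lt (s := s)) (mom_pos hs) hz N
  have hb : ∀ᵐ ζ ∂(rm s), ‖(1 - ζ) / (1 - conj z * ζ)‖ ≤ 2 / (1 - ‖z‖) := by
    filter_upwards [(rm_lt (s := s))] with ζ h1
    rw [norm_div]
    have h2 : ‖1 - ζ‖ ≤ 2 := by
      calc ‖1 - ζ‖ ≤ ‖(1:ℂ)‖ + ‖ζ‖ := norm_sub_le _ _
        _ ≤ 2 := by rw [norm_one]; linarith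
    have h3 : 1 - ‖z‖ ≤ ‖1 - conj z * ζ‖ := by
      have : ‖(1:ℂ)‖ - ‖conj z * ζ‖ ≤ ‖1 - conj z * ζ‖ := norm_sub_norm_le _ _
      rw [norm_one, norm_mul, RCLike.norm_conj] at this
      nlinarith [norm_nonneg z, norm_nonneg ζ]
    have h4 : 0 < 1 - ‖z‖ := by linarith
    exact div_le_div₀ (by norm_num) h2 h4 h3
  have h2 : ∫⁻ ζ, kk z ζ ∂(rm s) = ENNReal.ofReal (∫ ζ, ‖(1 - ζ) / (1 - conj z * ζ)‖ ^ 2 ∂(rm s)) := by
    rw [ofReal_integral_eq_lintegral_ofReal]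
    · refine lintegral_congr_ae ?_
      filter_upwards [(rm_lt (s := s))] with ζ h1
      have h3 : ‖1 - conj z * ζ‖ = ‖1 - z * conj ζ‖ := by
        have : 1 - conj z * ζ = conj (1 - z * conj ζ) := by simp
        rw [this, RCLike.norm_conj]
      have h4 : 0 < ‖1 - z * conj ζ‖ := by
        rw [norm_pos_iff]
        apply one_sub_ne
        rw [norm_mul, RCLike.norm_conj]
        nlinarith [norm_nonneg z, norm_nonneg ζ]
      unfold kk
      rw [← ofReal_norm, ← ENNReal.ofReal_pow (norm_nonneg _), norm_div, h3, div_pow,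
        ENNReal.ofReal_div_of_pos (by positivity)]
    · refine Integrable.of_bound (Measurable.aestronglyMeasurable (by fun_prop)) ((2 / (1 - ‖z‖)) ^ 2) ?_
      filter_upwards [hb] with ζ hk
      rw [norm_pow, norm_norm]
      gcongr
    · exact Filter.Eventually.of_forall fun z => by positivity
  rw [h2]
  refine ENNReal.ofReal_le_ofReal (le_trans ?_ h1)
  refine mul_le_mul_of_nonneg_left (le_of_eq ?_) (by positivity)
  unfold SA
  exact Finset.sum_congr rfl fun m _ => mul_comm _ _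

lemma int_lower' (N : ℕ) :
    ENNReal.ofReal (Real.pi * ∑ m ∈ Finset.range N, mom (rm s) (m + 1) ^ 2 / ((m:ℝ) + 2))
      ≤ ∫⁻ z in Metric.ball (0:ℂ) 1, (∫⁻ ζ, kk z ζ ∂(rm s)) ^ 2 * ENNReal.ofReal (wW z) := by
  obtain ⟨b, hb⟩ : ∃ b : ℕ → ℝ, b = fun m => mom (rm s) (m + 1) := ⟨_, rfl⟩
  have b0 : ∀ m, 0 ≤ b m := fun m => by rw [hb]; exact (mom_pos hs _).le
  have b1 : ∀ m n, m ≤ n → b n ≤ b m := fun m n h => by
    rw [hb]; exact mom_anti hs (by omega)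
  have e : ∑ m ∈ Finset.range N, mom (rm s) (m + 1) ^ 2 / ((m:ℝ) + 2) =
      ∑ m ∈ Finset.range N, b m ^ 2 / ((m:ℝ) + 2) := by rw [hb]
  rw [e]
  calc ENNReal.ofReal (Real.pi * ∑ m ∈ Finset.range N, b m ^ 2 / ((m:ℝ) + 2))
      ≤ ENNReal.ofReal (∫ z, (‖1 - z‖ ^ 2 * SA b N z ^ 2) ∂nu) :=
        ENNReal.ofReal_le_ofReal (lower_nu' b0 b1 N)
    _ = ∫⁻ z, ENNReal.ofReal (‖1 - z‖ ^ 2 * SA b N z ^ 2) ∂nu := by
        rw [ofReal_integral_eq_lintegral_ofReal]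
        · have hc1 : Continuous (fun z : ℂ => ‖1 - z‖ ^ 2 * SA b N z ^ 2) := by
            have := SA_cont b N; fun_prop
          refine nu_int hc1 (K := 2 ^ 2 * ((N:ℝ) * b 0) ^ 2) fun z hz => ?_
          rw [Real.norm_eq_abs, abs_of_nonneg (by positivity)]
          have h2 : ‖1 - z‖ ≤ 2 := by
            calc ‖1 - z‖ ≤ ‖(1:ℂ)‖ + ‖z‖ := norm_sub_le _ _
              _ ≤ 2 := by rw [norm_one]; linarith
          have := SA_le b0 b1 N hz
          have := SA_nonneg b0 N z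
          gcongr
        · exact Filter.Eventually.of_forall fun z => by positivity
    _ = ∫⁻ z in Metric.ball (0:ℂ) 1, ENNReal.ofReal (1 - ‖z‖ ^ 2) *
          ENNReal.ofReal (‖1 - z‖ ^ 2 * SA b N z ^ 2) := lint_nu _
    _ ≤ _ := by
        refine setLIntegral_mono' measurableSet_ball fun z hz => ?_
        have hz' : ‖z‖ < 1 := by simpa using hz
        have h1 := A_lower' hs N hz'
        rw [← hb] at h1
        have hpos : 0 < ‖1 - z‖ := norm_pos_iff.mpr (one_sub_ne hz')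
        have h3 : 0 ≤ 1 - ‖z‖ ^ 2 := by nlinarith [norm_nonneg z]
        calc ENNReal.ofReal (1 - ‖z‖ ^ 2) * ENNReal.ofReal (‖1 - z‖ ^ 2 * SA b N z ^ 2)
            = ENNReal.ofReal (‖1 - z‖ ^ 2 * SA b N z) ^ 2 * ENNReal.ofReal (wW z) := by
              have h4 := SA_nonneg b0 N z
              rw [← ENNReal.ofReal_mul h3, ← ENNReal.ofReal_pow (by positivity),
                ← ENNReal.ofReal_mul (by positivity)]
              congr 1
              unfold wW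
              field_simp
          _ ≤ _ := by gcongr

/-- the condition in terms of the moments -/
theorem int_top (h : ¬ Summable fun N : ℕ =>
    (∫ z in Metric.ball (0:ℂ) 1, ‖z‖ ^ (2 * N) * s ‖z‖) ^ 2 / (N + 1)) :
    ∫⁻ z in Metric.ball (0:ℂ) 1, (∫⁻ ζ, kk z ζ ∂(rm s)) ^ 2 * ENNReal.ofReal (wW z) = ∞ := by
  by_contra hne
  apply h
  have e : (fun N : ℕ => (∫ z in Metric.ball (0:ℂ) 1, ‖z‖ ^ (2 * N) * s ‖z‖) ^ 2 / ((N:ℝ) + 1)) =
      fun N : ℕ => mom (rm s) N ^ 2 / ((N:ℝ) + 1) := by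
    funext N
    rw [← mom_eq hs]
  rw [e, ← summable_nat_add_iff 1]
  refine summable_of_sum_range_le (c := (∫⁻ z in Metric.ball (0:ℂ) 1,
    (∫⁻ ζ, kk z ζ ∂(rm s)) ^ 2 * ENNReal.ofReal (wW z)).toReal / Real.pi)
    (fun n => by positivity) fun n => ?_
  have h1 := int_lower' hs n
  rw [← ENNReal.ofReal_toReal hne] at h1
  have h2 := (ENNReal.ofReal_le_ofReal_iff ENNReal.toReal_nonneg).mp h1
  rw [le_div_iff₀ Real.pi_pos, mul_comm]
  refine le_trans (le_of_eq ?_) h2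
  congr 1
  refine Finset.sum_congr rfl fun m _ => ?_
  congr 1
  push_cast
  ring

end

end Pool.Agent.Y502.BP
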