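import Pool.Agent.Y502.BP.Gen3
import Pool.Agent.Y502.BP.Ex
import Pool.Agent.Y502.BP.Low

/-!
# Bounded perturbations of the weights, main theorem
-/

set_option autoImplicit false
open MeasureTheory Set Filter Topology
open scoped ENNReal NNReal ComplexConjugate

namespace Pool.Agent.Y502.BP

open Pool.Agent.Helper66.Berg Pool.Agent.Results.MP_5b3867_an.BergmanTwoWeight

noncomputable section

/-- the two-weight inequality is stable under bounded factors -/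
lemma pert {T : (ℂ → ℂ) → ℂ → ℂ} {σ w g h : ℂ → ℝ} {C : ℝ} (hm : Measurable h)
    (h0 : ∀ z, 0 ≤ h z) (h1 : ∀ z, h z ≤ C) (g0 : ∀ z, 0 ≤ g z) (g1 : ∀ z, g z ≤ C)
    (hT : TwoWeightBounded T σ w) :
    TwoWeightBounded T (fun z => h z * σ z) (fun z => g z * w z) := by
  obtain ⟨K, hK⟩ := hT
  refine ⟨C.toNNReal * K * C.toNNReal, fun f hf => ?_⟩
  have hC : ((C.toNNReal : ℝ≥0) : ℝ≥0∞) = ENNReal.ofReal C := rfl
  obtain ⟨hfm, ⟨M, hM⟩, t, ht, hsupp⟩ := hf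
  have htest : IsTest (fun z => (h z : ℂ) * f z) := by
    refine ⟨(Complex.measurable_ofReal.comp hm).mul hfm, ⟨C * M, fun z => ?_⟩, t, ht, fun z hz => ?_⟩
    · rw [norm_mul, Complex.norm_real, Real.norm_eq_abs, abs_of_nonneg (h0 z)]
      exact mul_le_mul (h1 z) (hM z) (norm_nonneg _) ((h0 z).trans (h1 z))
    · show (h z : ℂ) * f z = 0
      rw [hsupp z hz, mul_zero]
  have hT' : (fun ζ => ((h ζ * σ ζ : ℝ) : ℂ) * f ζ) =
      fun ζ => (σ ζ : ℂ) * ((h ζ : ℂ) * f ζ) := by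
    funext ζ
    push_cast
    ring
  have e1 : ∀ z, ‖T (fun ζ => ((h ζ * σ ζ : ℝ) : ℂ) * f ζ) z‖ₑ ^ 2 * ENNReal.ofReal (g z * w z) ≤
      ENNReal.ofReal C * (‖T (fun ζ => (σ ζ : ℂ) * ((h ζ : ℂ) * f ζ)) z‖ₑ ^ 2 *
        ENNReal.ofReal (w z)) := by
    intro z
    rw [hT', ENNReal.ofReal_mul (g0 z)]
    calc _ = ENNReal.ofReal (g z) * (‖T (fun ζ => (σ ζ : ℂ) * ((h ζ : ℂ) * f ζ)) z‖ₑ ^ 2 *
          ENNReal.ofReal (w z)) := by ring
      _ ≤ _ := mul_le_mul_left (ENNReal.ofReal_le_ofReal (g1 z)) _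
  have e2 : ∀ z, ‖(h z : ℂ) * f z‖ₑ ^ 2 * ENNReal.ofReal (σ z) ≤
      ENNReal.ofReal C * (‖f z‖ₑ ^ 2 * ENNReal.ofReal (h z * σ z)) := by
    intro z
    rw [ENNReal.ofReal_mul (h0 z), enorm_mul]
    have e3 : ‖(h z : ℂ)‖ₑ = ENNReal.ofReal (h z) := by
      rw [← ofReal_norm, Complex.norm_real, Real.norm_eq_abs, abs_of_nonneg (h0 z)]
    rw [e3]
    calc _ = ENNReal.ofReal (h z) *
          (‖f z‖ₑ ^ 2 * (ENNReal.ofReal (h z) * ENNReal.ofReal (σ z))) := by ring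
      _ ≤ _ := mul_le_mul_left (ENNReal.ofReal_le_ofReal (h1 z)) _
  calc ∫⁻ z, ‖T (fun ζ => ((h ζ * σ ζ : ℝ) : ℂ) * f ζ) z‖ₑ ^ 2 *
        ENNReal.ofReal (g z * w z) ∂diskArea
      ≤ ∫⁻ z, ENNReal.ofReal C * (‖T (fun ζ => (σ ζ : ℂ) * ((h ζ : ℂ) * f ζ)) z‖ₑ ^ 2 *
        ENNReal.ofReal (w z)) ∂diskArea := lintegral_mono e1
    _ = ENNReal.ofReal C * ∫⁻ z, ‖T (fun ζ => (σ ζ : ℂ) * ((h ζ : ℂ) * f ζ)) z‖ₑ ^ 2 *
        ENNReal.ofReal (w z) ∂diskArea := lintegral_const_mul' _ _ ENNReal.ofReal_ne_top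
    _ ≤ ENNReal.ofReal C * (K * ∫⁻ z, ‖(h z : ℂ) * f z‖ₑ ^ 2 * ENNReal.ofReal (σ z) ∂diskArea) := by
        gcongr
        exact hK _ htest
    _ ≤ ENNReal.ofReal C * (K * ∫⁻ z, ENNReal.ofReal C *
          (‖f z‖ₑ ^ 2 * ENNReal.ofReal (h z * σ z)) ∂diskArea) := by
        gcongr ENNReal.ofReal C * (K * ?_)
        exact lintegral_mono e2
    _ = ENNReal.ofReal C * (K * (ENNReal.ofReal C * ∫⁻ z,
          ‖f z‖ₑ ^ 2 * ENNReal.ofReal (h z * σ z) ∂diskArea)) := by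
        rw [lintegral_const_mul' _ _ ENNReal.ofReal_ne_top]
    _ = ((C.toNNReal * K * C.toNNReal : ℝ≥0) : ℝ≥0∞) * ∫⁻ z,
          ‖f z‖ₑ ^ 2 * ENNReal.ofReal (h z * σ z) ∂diskArea := by
        rw [ENNReal.coe_mul, ENNReal.coe_mul, hC]
        ring

theorem main {s : ℝ → ℝ} (hs : Rad s) {g h : ℂ → ℝ} {c C : ℝ} (hc : 0 < c) (hg : Measurable g)
    (hh : Measurable h) (hg1 : ∀ z, c ≤ g z ∧ g z ≤ C) (hh1 : ∀ z, c ≤ h z ∧ h z ≤ C) :
    IsWeight (fun z => g z * wW z) ∧ IsWeight (fun z => h z * sG s z) ∧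
      TwoWeightBounded bergman (fun z => h z * sG s z) (fun z => g z * wW z) ∧
      (¬ (Summable fun N : ℕ =>
        (∫ z in Metric.ball (0:ℂ) 1, ‖z‖ ^ (2 * N) * s ‖z‖) ^ 2 / ((N:ℝ) + 1)) →
      ¬ TwoWeightBounded bergmanPlus (fun z => h z * sG s z) (fun z => g z * wW z)) := by
  have hC : 0 < C := hc.trans_le ((hg1 0).1.trans (hg1 0).2)
  have g0 : ∀ z, 0 < g z := fun z => hc.trans_le (hg1 z).1
  have h0 : ∀ z, 0 < h z := fun z => hc.trans_le (hh1 z).1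
  refine ⟨⟨fun z hz => mul_pos (g0 z) (wW_pos (by simpa using hz)), ?_⟩,
    ⟨fun z hz => mul_pos (h0 z) (sG_pos hs (by simpa using hz)), ?_⟩, ?_, ?_⟩
  · have h1 : LocallyIntegrableOn (fun z => C * wW z) (Metric.ball (0:ℂ) 1) volume :=
      (continuousOn_const.mul wW_cont).locallyIntegrableOn measurableSet_ball
    have hw : Measurable wW := by
      unfold wW
      fun_prop
    refine h1.mono (hg.mul hw).aestronglyMeasurable (Filter.Eventually.of_forall fun z => ?_)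
    show ‖g z * wW z‖ ≤ ‖C * wW z‖
    rw [norm_mul, norm_mul, Real.norm_eq_abs (g z), Real.norm_eq_abs C, abs_of_pos (g0 z),
      abs_of_pos hC]
    exact mul_le_mul_of_nonneg_right (hg1 z).2 (norm_nonneg _)
  · have h1 : LocallyIntegrableOn (fun z => C * sG s z) (Metric.ball (0:ℂ) 1) volume :=
      IntegrableOn.locallyIntegrableOn ((sG_integrable hs).const_mul C)
    refine h1.mono (hh.mul (sG_meas hs)).aestronglyMeasurable (Filter.Eventually.of_forall fun z => ?_)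
    show ‖h z * sG s z‖ ≤ ‖C * sG s z‖
    rw [norm_mul, norm_mul, Real.norm_eq_abs (h z), Real.norm_eq_abs C, abs_of_pos (h0 z),
      abs_of_pos hC]
    exact mul_le_mul_of_nonneg_right (hh1 z).2 (norm_nonneg _)
  · exact pert hh (fun z => (h0 z).le) (fun z => (hh1 z).2) (fun z => (g0 z).le)
      (fun z => (hg1 z).2) (bdd_gen hs)
  · intro hb hcon
    apply unbdd_gen hs (int_top hs hb)
    have h2 : TwoWeightBounded bergmanPlus (fun z => (h z)⁻¹ * (h z * sG s z))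
        (fun z => (g z)⁻¹ * (g z * wW z)) := by
      refine pert (C := c⁻¹) hh.inv (fun z => (inv_pos.2 (h0 z)).le) (fun z => ?_)
        (fun z => (inv_pos.2 (g0 z)).le) (fun z => ?_) hcon
      · exact inv_anti₀ hc (hh1 z).1
      · exact inv_anti₀ hc (hg1 z).1
    have e1 : (fun z => (h z)⁻¹ * (h z * sG s z)) = sG s := by
      funext z
      rw [← mul_assoc, inv_mul_cancel₀ (h0 z).ne', one_mul]
    have e2 : (fun z => (g z)⁻¹ * (g z * wW z)) = wW := by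
      funext z
      rw [← mul_assoc, inv_mul_cancel₀ (g0 z).ne', one_mul]
    rwa [e1, e2] at h2

end

end Pool.Agent.Y502.BP
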